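import Mathlib
import Pool.Agent.Helper38.TW.SqCard
import Pool.Agent.Helper38.TW.FExists
import Pool.Agent.Helper38.TW.GDefs

/-!
# TW5, leaf K1: classes of integers `v = m u²` with `γ (α v² + β)` a nonzero square

The factors `g_k` of `h = γ (α X² + β)` take values `τ_k u_k²` with `τ_k` in a finite set (`descent` with `D = 1`), so the `v` fall into a bounded number of classes modulo squares of `ℚ[X]/(X h)`, and every class is bounded (`sqmod_card`).
-/

set_option autoImplicit false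

namespace Pool.Agent.Helper5.TW

open Polynomial Pool.Agent.Helper38.TW

private theorem k1_quad_sqf (α β : ℚ) (hβ : β ≠ 0) :
    Squarefree (C α * X ^ 2 + C β : ℚ[X]) := by
  apply Polynomial.Separable.squarefree
  have hder : derivative (C α * X ^ 2 + C β : ℚ[X]) = C (2 * α) * X := by
    simp only [derivative_add, derivative_C, add_zero, derivative_C_mul, derivative_X_pow]
    rw [C_mul]
    simp
    ring
  rw [separable_def, hder]
  refine ⟨C (β⁻¹), C (-(β⁻¹) / 2) * X, ?_⟩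
  have h1 : (C (β⁻¹) : ℚ[X]) * C β = 1 := by
    rw [← C_mul, inv_mul_cancel₀ hβ, C_1]
  have h2 : (C (-(β⁻¹) / 2) * X : ℚ[X]) * (C (2 * α) * X) = -(C (β⁻¹) * C α * X ^ 2) := by
    have h3 : (C (-(β⁻¹) / 2) : ℚ[X]) * C (2 * α) = -(C (β⁻¹) * C α) := by
      rw [← C_mul, ← C_mul, ← C_neg]
      congr 1
      ring
    calc (C (-(β⁻¹) / 2) * X : ℚ[X]) * (C (2 * α) * X)
        = (C (-(β⁻¹) / 2) * C (2 * α)) * X ^ 2 := by ring
      _ = _ := by rw [h3]; ring
  rw [h2]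
  linear_combination h1

private theorem k1_g_coprime {f : ℤ[X]} {ι : Type} [Fintype ι] [DecidableEq ι] (dt : FData f ι)
    {i k : ι} (hik : i ≠ k) :
    IsCoprime ((dt.g i).map (Int.castRingHom ℚ)) ((dt.g k).map (Int.castRingHom ℚ)) := by
  obtain ⟨u, v, huv⟩ := dt.bez i k hik
  have hB : (dt.B : ℚ) ≠ 0 := by exact_mod_cast dt.B_ne
  have h := congrArg (Polynomial.map (Int.castRingHom ℚ)) huv
  simp only [Polynomial.map_add, Polynomial.map_mul, Polynomial.map_C] at h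
  refine ⟨C ((dt.B : ℚ)⁻¹) * u.map (Int.castRingHom ℚ), C ((dt.B : ℚ)⁻¹) * v.map (Int.castRingHom ℚ), ?_⟩
  rw [mul_assoc, mul_assoc, ← mul_add, h, ← C_mul]
  simp [hB]

private theorem k1_prod_sqf {f : ℤ[X]} {ι : Type} [Fintype ι] [DecidableEq ι] (dt : FData f ι) :
    Squarefree (∏ k, (dt.g k).map (Int.castRingHom ℚ)) := by
  apply Finset.squarefree_prod_of_pairwise_isCoprime
  · intro i _ k _ hik
    exact (k1_g_coprime dt hik).isRelPrime
  · intro i _
    exact (dt.irr i).squarefree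

private theorem k1_color {f : ℤ[X]} {ι : Type} [Fintype ι] [DecidableEq ι] (dt : FData f ι) (k : ι)
    (hk : (dt.g k).natDegree ≤ 2) (t : ℤ) (ht : t ≠ 0) :
    ∃ (n : ℕ) (col : ℤ → ℕ), (∀ x, col x < n) ∧ ∀ x x' : ℤ,
      (∃ u : ℤ, u ≠ 0 ∧ (dt.g k).eval x = t * u ^ 2) →
      (∃ u : ℤ, u ≠ 0 ∧ (dt.g k).eval x' = t * u ^ 2) →
      col x = col x' → SqMod ((dt.g k).map (Int.castRingHom ℚ)) x x' := by
  have hpos : 0 < (dt.g k).natDegree := by
    have h1 := (dt.irr k).natDegree_pos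
    rwa [natDegree_map_eq_of_injective (Int.castRingHom ℚ).injective_int] at h1
  have h12 : (dt.g k).natDegree = 1 ∨ (dt.g k).natDegree = 2 := by omega
  rcases h12 with h1 | h2
  · refine ⟨1, fun _ => 0, fun _ => Nat.one_pos, ?_⟩
    rintro x x' ⟨u, -, hu⟩ ⟨u', -, hu'⟩ -
    exact sqmod_lin h1 hu hu'
  · exact sqmod_quad h2 (dt.irr k) t ht

theorem class_quad (α β γ : ℤ) (hα : α ≠ 0) (hβ : β ≠ 0) (hγ : γ ≠ 0) :
    ∃ N : ℕ, ∀ m : ℤ, ∀ S : Finset ℤ,
      (∀ v ∈ S, (∃ u : ℤ, v = m * u ^ 2) ∧ ∃ y : ℤ, y ≠ 0 ∧ y ^ 2 = γ * (α * v ^ 2 + β)) →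
      S.card ≤ N := by
  classical
  obtain ⟨h, hh⟩ : ∃ h : ℤ[X], h = C γ * (C α * X ^ 2 + C β) := ⟨_, rfl⟩
  have hev : ∀ v : ℤ, h.eval v = γ * (α * v ^ 2 + β) := by
    intro v
    rw [hh]
    simp
  have hmap : h.map (Int.castRingHom ℚ) = C (γ : ℚ) * (C (α : ℚ) * X ^ 2 + C (β : ℚ)) := by
    rw [hh]
    simp
  have hsq : Squarefree (h.map (Int.castRingHom ℚ)) := by
    rw [hmap]
    have hu : IsUnit (C (γ : ℚ)) :=
      Polynomial.isUnit_C.mpr (isUnit_iff_ne_zero.mpr (by exact_mod_cast hγ))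
    rw [(associated_unit_mul_left _ _ hu).squarefree_iff]
    exact k1_quad_sqf _ _ (by exact_mod_cast hβ)
  have hdeg : h.natDegree = 2 := by
    rw [hh, natDegree_C_mul hγ]
    have h1 : (C α * X ^ 2 + C β : ℤ[X]).natDegree = (C α * X ^ 2 : ℤ[X]).natDegree :=
      natDegree_add_C
    rw [h1, natDegree_C_mul_X_pow 2 α hα]
  obtain ⟨n, ⟨dt⟩⟩ := exists_fdata h hsq
  have hB0 : (dt.B : ℤ) ≠ 0 := by exact_mod_cast dt.B_ne
  have hgne : ∀ k, dt.g k ≠ 0 := fun k => dt.f1_g_ne k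
  have hdeg2 : ∑ k, (dt.g k).natDegree = 2 := by rw [sum_deg dt, hdeg]
  have hk2 : ∀ k, (dt.g k).natDegree ≤ 2 := by
    intro k
    rw [← hdeg2]
    exact Finset.single_le_sum (f := fun k => (dt.g k).natDegree) (fun _ _ => Nat.zero_le _)
      (Finset.mem_univ k)
  -- `g_k(0) ≠ 0`
  have hg0 : ∀ k, (dt.g k).eval 0 ≠ 0 := by
    intro k h0
    have h1 := congrArg (fun p : ℤ[X] => p.eval 0) dt.fac
    simp only [eval_mul, eval_C, eval_prod] at h1
    rw [hev, Finset.prod_eq_zero (Finset.mem_univ k) h0, mul_zero] at h1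
    have h2 : dt.b * (γ * (α * 0 ^ 2 + β)) ≠ 0 := by
      refine mul_ne_zero dt.b_ne (mul_ne_zero hγ ?_)
      simpa using hβ
    exact h2 h1
  have hXg : ∀ k, IsCoprime (X : ℚ[X]) ((dt.g k).map (Int.castRingHom ℚ)) := by
    intro k
    refine (irreducible_X (R := ℚ)).coprime_iff_not_dvd.2 fun hd => ?_
    rw [X_dvd_iff, coeff_map, coeff_zero_eq_eval_zero] at hd
    refine hg0 k ?_
    have h1 : (((dt.g k).eval 0 : ℤ) : ℚ) = 0 := hd
    exact_mod_cast h1
  -- the cubic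
  obtain ⟨c, hc⟩ : ∃ c : ℤ[X], c = X * ∏ k, dt.g k := ⟨_, rfl⟩
  have hcmap : c.map (Int.castRingHom ℚ) = X * ∏ k, (dt.g k).map (Int.castRingHom ℚ) := by
    rw [hc, Polynomial.map_mul, Polynomial.map_X, Polynomial.map_prod]
  have hXP : IsCoprime (X : ℚ[X]) (∏ k, (dt.g k).map (Int.castRingHom ℚ)) :=
    IsCoprime.prod_right fun k _ => hXg k
  have hcdeg : c.natDegree = 3 := by
    rw [hc, natDegree_mul X_ne_zero (Finset.prod_ne_zero_iff.2 fun k _ => hgne k), natDegree_X,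
      natDegree_prod _ _ (fun k _ => hgne k), hdeg2]
  have hcsep : (c.map (Int.castRingHom ℚ)).Separable := by
    rw [PerfectField.separable_iff_squarefree, hcmap, squarefree_mul_iff]
    exact ⟨hXP.isRelPrime, irreducible_X.squarefree, k1_prod_sqf dt⟩
  obtain ⟨N, hN⟩ := sqmod_card c hcdeg hcsep
  -- the types
  have hT : ∀ v : ℤ, ∃ τ : Fin n → ℤ, (∃ y : ℤ, y ≠ 0 ∧ y ^ 2 = γ * (α * v ^ 2 + β)) →
      (∀ i, τ i ∈ divB dt ∧ τ i ≠ 0) ∧ ∀ i, ∃ u : ℤ, u ≠ 0 ∧ (dt.g i).eval v = τ i * u ^ 2 := by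
    intro v
    by_cases hv : ∃ y : ℤ, y ≠ 0 ∧ y ^ 2 = γ * (α * v ^ 2 + β)
    · obtain ⟨y, hy, hyv⟩ := hv
      obtain ⟨t, E, τ, -, hτ, h1, -, -, hu⟩ := descent dt 1 v y squarefree_one hy (by
        rw [one_mul, hev, hyv])
      have hE : (∏ i, E i) = 1 := by
        have h2 : IsUnit (((∏ i, E i : ℕ) : ℤ)) := IsUnit.of_mul_eq_one t (by rw [mul_comm]; exact h1.symm)
        have h3 := Int.isUnit_iff_natAbs_eq.1 h2
        rwa [Int.natAbs_natCast] at h3
      have hE1 : ∀ i, E i = 1 := by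
        intro i
        have h2 : E i ∣ ∏ i, E i := Finset.dvd_prod_of_mem _ (Finset.mem_univ i)
        rw [hE] at h2
        exact Nat.dvd_one.1 h2
      refine ⟨τ, fun _ => ⟨fun i => ?_, fun i => ?_⟩⟩
      · have h3 := hτ i
        have h4 : τ i ≠ 0 := by
          intro h0
          rw [h0, zero_dvd_iff] at h3
          exact hB0 h3
        have h2 : |τ i| ≤ (dt.B : ℤ) := Int.le_of_dvd (by positivity) ((abs_dvd _ _).mpr h3)
        refine ⟨?_, h4⟩
        rw [divB, Finset.mem_filter, Finset.mem_Icc]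
        exact ⟨abs_le.mp h2, h3⟩
      · obtain ⟨u, hu0, hu1⟩ := hu i
        refine ⟨u, hu0, ?_⟩
        rw [hu1, hE1 i]
        push_cast
        ring
    · exact ⟨fun _ => 0, fun h' => absurd h' hv⟩
  choose T hT using hT
  -- the colours
  have hex : ∀ (k : Fin n) (t : ℤ), ∃ (a : ℕ) (col : ℤ → ℕ), (∀ x, col x < a) ∧ (t ≠ 0 →
      ∀ x x' : ℤ, (∃ u : ℤ, u ≠ 0 ∧ (dt.g k).eval x = t * u ^ 2) →
      (∃ u : ℤ, u ≠ 0 ∧ (dt.g k).eval x' = t * u ^ 2) →
      col x = col x' → SqMod ((dt.g k).map (Int.castRingHom ℚ)) x x') := by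
    intro k t
    by_cases ht : t = 0
    · exact ⟨1, fun _ => 0, fun _ => Nat.one_pos, fun h' => absurd ht h'⟩
    · obtain ⟨a, col, h1, h2⟩ := k1_color dt k (hk2 k) t ht
      exact ⟨a, col, h1, fun _ => h2⟩
  choose a col hcol hsq' using hex
  obtain ⟨M, hM⟩ : ∃ M : ℕ, M = ∑ k, ∑ t ∈ divB dt, a k t := ⟨_, rfl⟩
  refine ⟨N * (Fintype.piFinset (fun _ : Fin n => divB dt) ×ˢ
    Fintype.piFinset (fun _ : Fin n => Finset.range M)).card, fun m S hS => ?_⟩
  have h1 : S.card ≤ N * (S.image (fun v => (T v, fun k => col k (T v k) v))).card := by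
    refine Finset.card_le_mul_card_image S N ?_
    intro w _
    refine hN _ ?_
    intro x hx x' hx'
    obtain ⟨hx1, hx2⟩ := Finset.mem_filter.1 hx
    obtain ⟨hx1', hx2'⟩ := Finset.mem_filter.1 hx'
    obtain ⟨⟨u, hu⟩, hy⟩ := hS x hx1
    obtain ⟨⟨u', hu'⟩, hy'⟩ := hS x' hx1'
    obtain ⟨hτ, hg⟩ := hT x hy
    obtain ⟨hτ', hg'⟩ := hT x' hy'
    have h3 := hx2.trans hx2'.symm
    have h4 : T x = T x' := congrArg Prod.fst h3
    have h5 : (fun k => col k (T x k) x) = fun k => col k (T x' k) x' := congrArg Prod.snd h3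
    rw [hcmap]
    refine sqmod_mul hXP ?_ ?_
    · have h6 := sqmod_lin (g := (X : ℤ[X])) natDegree_X (m := m) (x := x) (x' := x') (u := u)
        (u' := u') (by rw [eval_X]; exact hu) (by rw [eval_X]; exact hu')
      rwa [Polynomial.map_X] at h6
    · refine sqmod_prod _ _ (fun i _ k _ hik => k1_g_coprime dt hik) ?_
      intro k _
      have h6 : col k (T x k) x = col k (T x' k) x' := congrFun h5 k
      rw [← h4] at h6
      refine hsq' k (T x k) (hτ k).2 x x' (hg k) ?_ h6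
      rw [h4]
      exact hg' k
  have h2 : S.image (fun v => (T v, fun k => col k (T v k) v)) ⊆
      Fintype.piFinset (fun _ : Fin n => divB dt) ×ˢ
        Fintype.piFinset (fun _ : Fin n => Finset.range M) := by
    intro w hw
    obtain ⟨v, hv, rfl⟩ := Finset.mem_image.1 hw
    obtain ⟨-, hy⟩ := hS v hv
    obtain ⟨hτ, -⟩ := hT v hy
    rw [Finset.mem_product, Fintype.mem_piFinset, Fintype.mem_piFinset]
    refine ⟨fun k => (hτ k).1, fun k => Finset.mem_range.2 ?_⟩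
    refine (hcol k (T v k) v).trans_le ?_
    rw [hM]
    refine le_trans ?_ (Finset.single_le_sum (f := fun k => ∑ t ∈ divB dt, a k t)
      (fun _ _ => Nat.zero_le _) (Finset.mem_univ k))
    exact Finset.single_le_sum (f := fun t => a k t) (fun _ _ => Nat.zero_le _) (hτ k).1
  exact h1.trans (Nat.mul_le_mul_left N (Finset.card_le_card h2))

end Pool.Agent.Helper5.TW
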