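import Mathlib

/-!
# TW5 (MP_d88658_nt): arithmetic of the second descent

`descent`: `A z² + B z + C = C w²`, `z ≠ 0` an integer, `w` rational: `(w - 1)/z = p/q` in lowest terms gives
`z N = q v` with `N = A q² - C p² ≠ 0`, `v = 2 C p - B q`, `N ∣ C² Δ`, `gcd(q, v) ∣ 2 C` (`Δ = 4 A C - B² ≠ 0`).
`parts`: `q v = m u²`: the squarefree parts of `q` and `v` have product at most `g² |m|`, `gcd(q, v) ∣ g`.
-/

set_option autoImplicit false

namespace Pool.Agent.Helper5.TW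

theorem descent (A B C : ℤ) (hC : C ≠ 0) (hΔ : 4 * A * C - B ^ 2 ≠ 0) (z : ℤ) (hz : z ≠ 0) (w : ℚ)
    (h : (A : ℚ) * z ^ 2 + B * z + C = C * w ^ 2) :
    ∃ p q : ℤ, 0 < q ∧ IsCoprime p q ∧ A * q ^ 2 - C * p ^ 2 ≠ 0 ∧
      z * (A * q ^ 2 - C * p ^ 2) = q * (2 * C * p - B * q) ∧
      (A * q ^ 2 - C * p ^ 2) ∣ C ^ 2 * (4 * A * C - B ^ 2) ∧
      ∀ d : ℤ, d ∣ q → d ∣ 2 * C * p - B * q → d ∣ 2 * C := by
  have hzQ : (z : ℚ) ≠ 0 := by exact_mod_cast hz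
  obtain ⟨m, hm⟩ : ∃ m : ℚ, m = (w - 1) / z := ⟨_, rfl⟩
  have hw : w = 1 + m * z := by
    rw [hm]
    field_simp
    ring
  obtain ⟨p, hp⟩ : ∃ p : ℤ, p = m.num := ⟨_, rfl⟩
  obtain ⟨q, hq⟩ : ∃ q : ℤ, q = (m.den : ℤ) := ⟨_, rfl⟩
  have hq0 : 0 < q := by
    rw [hq]
    exact_mod_cast m.den_pos
  have hqQ : (q : ℚ) ≠ 0 := by exact_mod_cast hq0.ne'
  have hmpq : m = (p : ℚ) / q := by
    rw [hp, hq]
    exact_mod_cast (Rat.num_div_den m).symm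
  have hcop : IsCoprime p q := by
    rw [hp, hq, Int.isCoprime_iff_gcd_eq_one]
    exact m.reduced
  have hkey : z * (A * q ^ 2 - C * p ^ 2) = q * (2 * C * p - B * q) := by
    have h1 : (z : ℚ) * ((z : ℚ) * (A * q ^ 2 - C * p ^ 2)) = z * (q * (2 * C * p - B * q)) := by
      rw [hw, hmpq] at h
      field_simp at h
      linear_combination h
    have h2 := mul_left_cancel₀ hzQ h1
    exact_mod_cast h2
  obtain ⟨N, hN⟩ : ∃ N : ℤ, N = A * q ^ 2 - C * p ^ 2 := ⟨_, rfl⟩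
  obtain ⟨v, hv⟩ : ∃ v : ℤ, v = 2 * C * p - B * q := ⟨_, rfl⟩
  have hN0 : N ≠ 0 := by
    intro h0
    rw [← hN, ← hv, h0, mul_zero] at hkey
    have hv0 : v = 0 := (mul_eq_zero.1 hkey.symm).resolve_left hq0.ne'
    have h1 : (4 * A * C - B ^ 2) * q ^ 2 = 0 := by
      have e1 : (4 * A * C - B ^ 2) * q ^ 2 = 4 * C * N + v * (v + 2 * B * q) := by
        rw [hN, hv]
        ring
      rw [e1, h0, hv0]
      ring
    rcases mul_eq_zero.1 h1 with h2 | h2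
    · exact hΔ h2
    · exact hq0.ne' (pow_eq_zero_iff (two_ne_zero)|>.1 h2)
  rw [← hN, ← hv] at hkey
  refine ⟨p, q, hq0, hcop, by rw [← hN]; exact hN0, by rw [← hN, ← hv]; exact hkey, ?_, ?_⟩
  · rw [← hN]
    obtain ⟨a, b, ha, hb, hab⟩ := exists_dvd_and_dvd_of_dvd_mul (Dvd.intro_left z hkey : N ∣ q * v)
    have haN : a ∣ N := ⟨b, hab⟩
    have hbN : b ∣ N := ⟨a, by rw [hab]; ring⟩
    have haC : a ∣ C := by
      have h1 : a ∣ C * p ^ 2 := by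
        have h2 : C * p ^ 2 = A * q ^ 2 - N := by rw [hN]; ring
        rw [h2]
        exact dvd_sub ((ha.trans (dvd_pow_self q two_ne_zero)).mul_left A) haN
      have h3 : IsCoprime a (p ^ 2) := by
        refine IsCoprime.pow_right ?_
        exact (IsCoprime.of_isCoprime_of_dvd_right hcop ha).symm
      exact h3.dvd_of_dvd_mul_right h1
    have hbD : b ∣ C * (4 * A * C - B ^ 2) := by
      have h1 : b ∣ C * (4 * A * C - B ^ 2) * q ^ 2 := by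
        have e1 : C * (4 * A * C - B ^ 2) * q ^ 2 = C * (4 * C) * N + v * (C * (v + 2 * B * q)) := by
          rw [hN, hv]
          ring
        rw [e1]
        exact dvd_add (hbN.mul_left _) (hb.mul_right _)
      have h2 : b ∣ C * (4 * A * C - B ^ 2) * p ^ 2 := by
        have e1 : C * (4 * A * C - B ^ 2) * p ^ 2 = B ^ 2 * N - v * (A * v - 4 * A * C * p) := by
          rw [hN, hv]
          ring
        rw [e1]
        exact dvd_sub (hbN.mul_left _) (hb.mul_right _)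
      obtain ⟨r, s, hrs⟩ : IsCoprime (p ^ 2) (q ^ 2) := hcop.pow
      have e2 : C * (4 * A * C - B ^ 2) = r * (C * (4 * A * C - B ^ 2) * p ^ 2) +
          s * (C * (4 * A * C - B ^ 2) * q ^ 2) := by
        calc C * (4 * A * C - B ^ 2) = C * (4 * A * C - B ^ 2) * (r * p ^ 2 + s * q ^ 2) := by
              rw [hrs, mul_one]
          _ = _ := by ring
      rw [e2]
      exact dvd_add (h2.mul_left _) (h1.mul_left _)
    have h3 : a * b ∣ C * (C * (4 * A * C - B ^ 2)) := mul_dvd_mul haC hbD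
    rw [← hab] at h3
    have e3 : C ^ 2 * (4 * A * C - B ^ 2) = C * (C * (4 * A * C - B ^ 2)) := by ring
    rw [e3]
    exact h3
  · intro d hd1 hd2
    have h1 : d ∣ 2 * C * p := by
      have h2 : 2 * C * p = (2 * C * p - B * q) + B * q := by ring
      rw [h2]
      exact dvd_add hd2 (hd1.mul_left B)
    have h3 : IsCoprime d p := (IsCoprime.of_isCoprime_of_dvd_right hcop hd1).symm
    exact h3.dvd_of_dvd_mul_right h1

/-- integers are squarefree numbers times squares -/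
theorem sqf_decomp (n : ℤ) (hn : n ≠ 0) : ∃ s a : ℤ, Squarefree s ∧ a ≠ 0 ∧ n = s * a ^ 2 := by
  obtain ⟨a, b, hab, ha⟩ := Nat.sq_mul_squarefree n.natAbs
  have hb : b ≠ 0 := by
    rintro rfl
    rw [zero_pow two_ne_zero, zero_mul] at hab
    exact hn (Int.natAbs_eq_zero.1 hab.symm)
  have haZ : Squarefree (a : ℤ) := Int.squarefree_natCast.2 ha
  rcases Int.natAbs_eq n with h | h
  · refine ⟨a, b, haZ, by exact_mod_cast hb, ?_⟩
    rw [h, ← hab]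
    push_cast
    ring
  · have haN : Squarefree (-(a : ℤ)) := fun x hx => haZ x (by
      have := hx
      rwa [dvd_neg] at this)
    refine ⟨-a, b, haN, by exact_mod_cast hb, ?_⟩
    rw [h, ← hab]
    push_cast
    ring

/-- a squarefree `S` with `S b² = M u²` divides `M` -/
theorem sqf_dvd {S b M u : ℤ} (hS : Squarefree S) (hu : u ≠ 0) (h : S * b ^ 2 = M * u ^ 2) : S ∣ M := by
  obtain ⟨b', u', hcop, hb, hu'⟩ : ∃ b' u' : ℤ, IsCoprime b' u' ∧ b = (Int.gcd b u : ℤ) * b' ∧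
      u = (Int.gcd b u : ℤ) * u' := by
    have h1 : 0 < Int.gcd b u := Int.gcd_pos_of_ne_zero_right b hu
    refine ⟨b / Int.gcd b u, u / Int.gcd b u, ?_, ?_, ?_⟩
    · rw [Int.isCoprime_iff_gcd_eq_one]
      exact Int.gcd_ediv_gcd_ediv_gcd h1
    · exact (Int.mul_ediv_cancel' (Int.gcd_dvd_left b u)).symm
    · exact (Int.mul_ediv_cancel' (Int.gcd_dvd_right b u)).symm
  set g : ℤ := (Int.gcd b u : ℤ) with hg
  have hg0 : g ≠ 0 := by
    intro h0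
    rw [h0, zero_mul] at hu'
    exact hu hu'
  have h2 : S * b' ^ 2 = M * u' ^ 2 := by
    rw [hb, hu'] at h
    have h3 : g ^ 2 * (S * b' ^ 2) = g ^ 2 * (M * u' ^ 2) := by linear_combination h
    exact mul_left_cancel₀ (pow_ne_zero 2 hg0) h3
  have h4 : u' ^ 2 ∣ S := by
    have h5 : IsCoprime (u' ^ 2) (b' ^ 2) := (hcop.symm).pow
    exact h5.dvd_of_dvd_mul_right ⟨M, by rw [h2]; ring⟩
  have h6 : IsUnit u' := hS u' (by rw [← pow_two]; exact h4)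
  have h7 : u' ^ 2 = 1 := by
    rcases Int.isUnit_iff.1 h6 with h8 | h8 <;> rw [h8] <;> norm_num
  rw [h7, mul_one] at h2
  exact ⟨b' ^ 2, h2.symm⟩

theorem parts {q v m u g : ℤ} (hq : q ≠ 0) (hv : v ≠ 0) (hm : m ≠ 0) (hg0 : g ≠ 0)
    (h : q * v = m * u ^ 2) (hg : ∀ d : ℤ, d ∣ q → d ∣ v → d ∣ g) :
    ∃ s₁ a₁ s₂ a₂ : ℤ, Squarefree s₁ ∧ Squarefree s₂ ∧ a₁ ≠ 0 ∧ a₂ ≠ 0 ∧ q = s₁ * a₁ ^ 2 ∧
      v = s₂ * a₂ ^ 2 ∧ |s₁| * |s₂| ≤ g ^ 2 * |m| := by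
  have hu : u ≠ 0 := by
    rintro rfl
    rw [zero_pow two_ne_zero, mul_zero] at h
    rcases mul_eq_zero.1 h with h1 | h1
    · exact hq h1
    · exact hv h1
  obtain ⟨s₁, a₁, hs₁, ha₁, h₁⟩ := sqf_decomp q hq
  obtain ⟨s₂, a₂, hs₂, ha₂, h₂⟩ := sqf_decomp v hv
  refine ⟨s₁, a₁, s₂, a₂, hs₁, hs₂, ha₁, ha₂, h₁, h₂, ?_⟩
  have hs₁0 : s₁ ≠ 0 := hs₁.ne_zero
  have hs₂0 : s₂ ≠ 0 := hs₂.ne_zero
  -- the common divisor
  have hd0 : 0 < Int.gcd s₁ s₂ := Int.gcd_pos_of_ne_zero_left s₂ hs₁0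
  have hdpos' : (0 : ℤ) < (Int.gcd s₁ s₂ : ℤ) := by exact_mod_cast hd0
  set d : ℤ := (Int.gcd s₁ s₂ : ℤ) with hd
  have hdpos : 0 < d := hdpos'
  obtain ⟨c₁, hc₁⟩ : d ∣ s₁ := Int.gcd_dvd_left s₁ s₂
  obtain ⟨c₂, hc₂⟩ : d ∣ s₂ := Int.gcd_dvd_right s₁ s₂
  have hcop : IsCoprime c₁ c₂ := by
    rw [Int.isCoprime_iff_gcd_eq_one]
    have h3 := Int.gcd_ediv_gcd_ediv_gcd hd0
    have e1 : s₁ / (Int.gcd s₁ s₂ : ℤ) = c₁ := by
      rw [← hd]
      exact Int.ediv_eq_of_eq_mul_right hdpos.ne' hc₁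
    have e2 : s₂ / (Int.gcd s₁ s₂ : ℤ) = c₂ := by
      rw [← hd]
      exact Int.ediv_eq_of_eq_mul_right hdpos.ne' hc₂
    rwa [e1, e2] at h3
  have hsq : Squarefree (c₁ * c₂) := by
    rw [squarefree_mul_iff]
    refine ⟨hcop.isRelPrime, ?_, ?_⟩
    · exact hs₁.squarefree_of_dvd ⟨d, by rw [hc₁]; ring⟩
    · exact hs₂.squarefree_of_dvd ⟨d, by rw [hc₂]; ring⟩
  have hdg : d ∣ g := by
    apply hg
    · rw [h₁]
      exact (Int.gcd_dvd_left s₁ s₂).mul_right _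
    · rw [h₂]
      exact (Int.gcd_dvd_right s₁ s₂).mul_right _
  have h5 : (c₁ * c₂) * (d * a₁ * a₂) ^ 2 = m * u ^ 2 := by
    rw [← h, h₁, h₂]
    conv_rhs => rw [hc₁, hc₂]
    ring
  have h6 : c₁ * c₂ ∣ m := sqf_dvd hsq hu h5
  have h7 : |c₁ * c₂| ≤ |m| := Int.le_of_dvd (abs_pos.2 hm) ((abs_dvd_abs _ _).2 h6)
  have h8 : d ^ 2 ≤ g ^ 2 := by
    have h9 : d ≤ |g| := Int.le_of_dvd (abs_pos.2 hg0) ((dvd_abs _ _).2 hdg)
    rw [← sq_abs g]
    exact pow_le_pow_left₀ hdpos.le h9 2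
  have h10 : |s₁| * |s₂| = d ^ 2 * |c₁ * c₂| := by
    conv_lhs => rw [hc₁, hc₂]
    rw [abs_mul, abs_mul, abs_mul, abs_of_pos hdpos]
    ring
  rw [h10]
  exact mul_le_mul h8 h7 (abs_nonneg _) (sq_nonneg _)

end Pool.Agent.Helper5.TW
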