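import Mathlib

/-!
# TW3, leaf Q (MP_d88658_nt): finitely many `x` with `y² = F(x)`, `F` quadratic with leading coefficient negative or a square

`4 a F(x) = (2 a x + b)² - Δ`, `Δ = b² - 4 a c ≠ 0`. `a < 0`: `F(x) ≥ 0` bounds `x`. `a = s²` (`s` an integer, as
`a` is an integer): `(2 a x + b)² - (2 s y)² = Δ`, so `2 a x + b + 2 s y` divides `Δ`.
-/

set_option autoImplicit false

namespace Pool.Agent.Helper5.TW

open Polynomial

private theorem eval_quad (F : ℤ[X]) (hd : F.natDegree = 2) (x : ℤ) :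
    F.eval x = F.coeff 2 * x ^ 2 + F.coeff 1 * x + F.coeff 0 := by
  rw [eval_eq_sum_range, hd]
  simp [Finset.sum_range_succ]
  ring

/-- the discriminant is not zero -/
private theorem disc_ne (F : ℤ[X]) (hd : F.natDegree = 2)
    (hsq : Squarefree (F.map (Int.castRingHom ℚ))) :
    F.coeff 1 ^ 2 - 4 * F.coeff 2 * F.coeff 0 ≠ 0 := by
  intro h0
  have ha : F.coeff 2 ≠ 0 := by
    have h1 : F.leadingCoeff ≠ 0 := by
      rw [leadingCoeff_ne_zero]
      rintro rfl
      simp at hd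
    rwa [leadingCoeff, hd] at h1
  have haQ : (F.coeff 2 : ℚ) ≠ 0 := by exact_mod_cast ha
  obtain ⟨a, haDef⟩ : ∃ a : ℚ, a = ((F.coeff 2 : ℤ) : ℚ) := ⟨_, rfl⟩
  obtain ⟨b, hbDef⟩ : ∃ b : ℚ, b = ((F.coeff 1 : ℤ) : ℚ) := ⟨_, rfl⟩
  obtain ⟨c, hcDef⟩ : ∃ c : ℚ, c = ((F.coeff 0 : ℤ) : ℚ) := ⟨_, rfl⟩
  rw [← haDef] at haQ
  have h0Q : b ^ 2 - 4 * a * c = 0 := by
    rw [haDef, hbDef, hcDef]
    exact_mod_cast h0
  -- `F = a (X + b / (2 a))²`
  have hF : F.map (Int.castRingHom ℚ) = C a * ((X + C (b / (2 * a))) * (X + C (b / (2 * a)))) := by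
    have h1 : F = C (F.coeff 2) * X ^ 2 + C (F.coeff 1) * X + C (F.coeff 0) :=
      eq_quadratic_of_degree_le_two (natDegree_le_iff_degree_le.1 hd.le)
    have h2 : F.map (Int.castRingHom ℚ) = C a * X ^ 2 + C b * X + C c := by
      conv_lhs => rw [h1]
      simp [haDef, hbDef, hcDef]
    rw [h2]
    have e1 : C b = (C a * (2 * C (b / (2 * a))) : ℚ[X]) := by
      rw [← C_ofNat 2, ← C_mul, ← C_mul]
      congr 1
      field_simp
    have e2 : C c = (C a * (C (b / (2 * a)) * C (b / (2 * a))) : ℚ[X]) := by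
      rw [← C_mul, ← C_mul]
      congr 1
      field_simp
      linarith
    rw [e1, e2]
    ring
  have hu := hsq (X + C (b / (2 * a))) ⟨C a, by rw [hF]; ring⟩
  have h3 := natDegree_eq_zero_of_isUnit hu
  rw [natDegree_X_add_C] at h3
  exact one_ne_zero h3

theorem quad_finite (F : ℤ[X]) (hd : F.natDegree = 2)
    (hsq : Squarefree (F.map (Int.castRingHom ℚ)))
    (h : F.leadingCoeff < 0 ∨ IsSquare ((F.leadingCoeff : ℤ) : ℚ)) :
    {x : ℤ | ∃ y : ℤ, y ^ 2 = F.eval x}.Finite := by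
  have hD := disc_ne F hd hsq
  have hlc : F.leadingCoeff = F.coeff 2 := by rw [leadingCoeff, hd]
  have ha : F.coeff 2 ≠ 0 := by
    have h1 : F.leadingCoeff ≠ 0 := by
      rw [leadingCoeff_ne_zero]
      rintro rfl
      simp at hd
    rwa [hlc] at h1
  rw [hlc] at h
  set a := F.coeff 2 with haDef
  set b := F.coeff 1 with hbDef
  set c := F.coeff 0 with hcDef
  set Δ := b ^ 2 - 4 * a * c with hΔ
  have hid : ∀ x : ℤ, 4 * a * F.eval x = (2 * a * x + b) ^ 2 - Δ := by
    intro x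
    rw [eval_quad F hd x, hΔ]
    ring
  -- a bound for `2 a x + b`
  suffices hB : ∀ x y : ℤ, y ^ 2 = F.eval x → |2 * a * x + b| ≤ |Δ| by
    refine Set.Finite.subset (Set.finite_Icc (-(|Δ| + |b|)) (|Δ| + |b|)) ?_
    rintro x ⟨y, hy⟩
    have h1 := hB x y hy
    have h2 : |2 * a * x| ≤ |Δ| + |b| := by
      have h3 : 2 * a * x = (2 * a * x + b) - b := by ring
      rw [h3]
      exact (abs_sub _ _).trans (by linarith)
    have h4 : |x| ≤ |2 * a * x| := by
      rw [abs_mul]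
      have h5 : 1 ≤ |2 * a| := Int.one_le_abs (mul_ne_zero two_ne_zero ha)
      nlinarith [abs_nonneg x]
    exact abs_le.1 (h4.trans h2)
  intro x y hy
  have h1 := hid x
  rw [← hy] at h1
  rcases h with h | h
  · -- `a < 0`
    have h2 : (2 * a * x + b) ^ 2 ≤ Δ := by nlinarith [sq_nonneg y]
    have h3 : |2 * a * x + b| ≤ (2 * a * x + b) ^ 2 := by
      rw [← sq_abs]
      rcases eq_or_ne (2 * a * x + b) 0 with h0 | h0
      · rw [h0]
        simp
      · have := Int.one_le_abs h0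
        nlinarith
    exact h3.trans (h2.trans (le_abs_self Δ))
  · -- `a = s²`
    obtain ⟨s, hs⟩ : IsSquare a := by
      rwa [Rat.isSquare_intCast_iff] at h
    have h2 : (2 * a * x + b + 2 * s * y) * (2 * a * x + b - 2 * s * y) = Δ := by
      have h3 : 4 * a * y ^ 2 = (2 * s * y) ^ 2 := by
        rw [hs]
        ring
      linear_combination (-1 : ℤ) * h1 + h3
    set p := 2 * a * x + b + 2 * s * y with hp
    set q := 2 * a * x + b - 2 * s * y with hq
    have hp0 : p ≠ 0 := by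
      intro h0
      rw [h0, zero_mul] at h2
      exact hD h2.symm
    have hq0 : q ≠ 0 := by
      intro h0
      rw [h0, mul_zero] at h2
      exact hD h2.symm
    have h4 : |Δ| = |p| * |q| := by rw [← h2, abs_mul]
    have h5 : 1 ≤ |p| := Int.one_le_abs hp0
    have h6 : 1 ≤ |q| := Int.one_le_abs hq0
    have h7 : 2 * |2 * a * x + b| ≤ |p| + |q| := by
      have h8 : 2 * (2 * a * x + b) = p + q := by
        rw [hp, hq]
        ring
      have h9 : 2 * |2 * a * x + b| = |2 * (2 * a * x + b)| := by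
        rw [abs_mul]
        norm_num
      rw [h9, h8]
      exact abs_add_le p q
    rw [h4]
    nlinarith [mul_nonneg (sub_nonneg.2 h5) (sub_nonneg.2 h6)]

end Pool.Agent.Helper5.TW
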